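import Mathlib

/-!
# Homogeneous groups and crystallographic groups

The first-order language of groups, types, homogeneity; crystallographic groups, their translation
subgroups, splitness, irreducibility.
-/

set_option autoImplicit false

namespace Q199.HC

open FirstOrder

/-- The function symbols of the language of groups. -/
inductive GroupFunc : ℕ → Type
  | one : GroupFunc 0
  | inv : GroupFunc 1
  | mul : GroupFunc 2

/-- The first-order language of groups. -/
def groupLang : FirstOrder.Language.{0, 0} where
  Functions := GroupFunc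
  Relations := fun _ => Empty

/-- A group as a structure for the language of groups. -/
instance groupStructure (G : Type) [Group G] : groupLang.Structure G where
  funMap := fun {n} (f : GroupFunc n) => match n, f with
    | _, .one => fun _ => 1
    | _, .inv => fun x => (x 0)⁻¹
    | _, .mul => fun x => x 0 * x 1
  RelMap := fun r _ => r.elim

/-- The tuples `u` and `v` satisfy the same first-order formulas in the group `G`. -/
def SameType (G : Type) [Group G] {k : ℕ} (u v : Fin k → G) : Prop :=
  ∀ φ : groupLang.Formula (Fin k), φ.Realize u ↔ φ.Realize v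

/-- `G` is homogeneous: tuples of the same type are conjugate under automorphisms. -/
def IsHomogeneous (G : Type) [Group G] : Prop :=
  ∀ k : ℕ, 1 ≤ k → ∀ u v : Fin k → G, SameType G u v → ∃ σ : G ≃* G, ∀ i, σ (u i) = v i

/-- The Euclidean space `ℝⁿ`. -/
abbrev E (n : ℕ) : Type := EuclideanSpace ℝ (Fin n)

/-- The group of the isometries of `ℝⁿ`. -/
def Isom (n : ℕ) : Type := E n ≃ᵢ E n

noncomputable instance isomGroup (n : ℕ) : Group (Isom n) := inferInstanceAs (Group (E n ≃ᵢ E n))

/-- The value of the isometry `g` at `x`. -/
def ap {n : ℕ} (g : Isom n) (x : E n) : E n := IsometryEquiv.toEquiv g x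

/-- `g` is the translation by the vector `a`. -/
def IsTranslation {n : ℕ} (g : Isom n) (a : E n) : Prop := ∀ x, ap g x = x + a

/-- `G` is a crystallographic group of dimension `n`: a discrete cocompact subgroup of the group of
isometries of `ℝⁿ`. Discrete: for every compact set `K` only finitely many `g ∈ G` satisfy
`gK ∩ K ≠ ∅`. Cocompact: the translates of some compact set cover `ℝⁿ`. -/
structure IsCrystallographic (n : ℕ) (G : Subgroup (Isom n)) : Prop where
  pos : 1 ≤ n
  discrete : ∀ K : Set (E n), IsCompact K → {g | g ∈ G ∧ (ap g '' K ∩ K).Nonempty}.Finite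
  cocompact : ∃ K : Set (E n), IsCompact K ∧ ∀ x, ∃ g ∈ G, x ∈ ap g '' K

/-- The translation subgroup of `G`. -/
def translations {n : ℕ} (G : Subgroup (Isom n)) : Subgroup G where
  carrier := {g | ∃ a, IsTranslation g.1 a}
  mul_mem' := by
    rintro g h ⟨a, ha⟩ ⟨b, hb⟩
    refine ⟨b + a, fun x => ?_⟩
    show ap g.1 (ap h.1 x) = _
    rw [hb, ha, add_assoc]
  one_mem' := ⟨0, fun x => (add_zero x).symm⟩
  inv_mem' := by
    rintro g ⟨a, ha⟩
    refine ⟨-a, fun x => ?_⟩
    have h1 : ap g.1 (ap g.1⁻¹ x) = x := IsometryEquiv.apply_symm_apply (α := E n) g.1 x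
    rw [ha] at h1
    exact eq_add_neg_of_add_eq h1

/-- `G` is split: the translation subgroup has a complement. -/
def IsSplit {n : ℕ} (G : Subgroup (Isom n)) : Prop :=
  ∃ K : Subgroup G, K ⊓ translations G = ⊥ ∧ K ⊔ translations G = ⊤

/-- The vector space `ℚⁿ` spanned over `ℚ` by the vectors of the translations in `G`. -/
noncomputable def ratSpan {n : ℕ} (G : Subgroup (Isom n)) : Submodule ℚ (E n) :=
  Submodule.span ℚ {a | ∃ g ∈ G, IsTranslation g a}

/-- `W` is invariant under the point group of `G`, that is, under the linear parts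
`w ↦ g w - g 0` of the elements `g` of `G`. -/
def IsInvariant {n : ℕ} (G : Subgroup (Isom n)) (W : Submodule ℚ (E n)) : Prop :=
  ∀ g ∈ G, ∀ w ∈ W, ap g w - ap g 0 ∈ W

/-- `G` is irreducible: the only `ℚ`-subspaces of the rational span of the translation lattice that
are invariant under the point group are zero and the whole space. -/
def IsIrreducible {n : ℕ} (G : Subgroup (Isom n)) : Prop :=
  ∀ W : Submodule ℚ (E n), W ≤ ratSpan G → IsInvariant G W → W = ⊥ ∨ W = ratSpan G

end Q199.HC
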