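import Mathlib

/-!
The group `A_4 ⊗ A ⋊ (S_5 × {±1})`.
-/

set_option autoImplicit false

namespace Q199.HC

/-- the group of the `(t, h, e)`, `t` a vector with five entries in `A` and sum zero, `h` a
permutation of the positions, `e` a sign -/
@[ext]
structure Gr (A : Type) [AddCommGroup A] where
  t : ZMod 5 → A
  ht : ∑ i, t i = 0
  h : Equiv.Perm (ZMod 5)
  e : ℤˣ

namespace Gr

variable {A : Type} [AddCommGroup A]

theorem e_cases (e : ℤˣ) : e = 1 ∨ e = -1 := Int.units_eq_one_or e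

theorem e_mul_self (e : ℤˣ) : e * e = 1 := Int.units_mul_self e

theorem sum_perm (f : ZMod 5 → A) (h : Equiv.Perm (ZMod 5)) : ∑ i, f (h i) = ∑ i, f i :=
  Equiv.sum_comp h f

instance : Mul (Gr A) where
  mul x y :=
    { t := fun i => x.t i + x.e • y.t (x.h⁻¹ i)
      ht := by
        rw [Finset.sum_add_distrib, x.ht, zero_add, ← Finset.smul_sum,
          sum_perm y.t x.h⁻¹, y.ht, smul_zero]
      h := x.h * y.h
      e := x.e * y.e }

instance : One (Gr A) where
  one := { t := 0, ht := by simp, h := 1, e := 1 }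

instance : Inv (Gr A) where
  inv x :=
    { t := fun i => -(x.e • x.t (x.h i))
      ht := by
        rw [Finset.sum_neg_distrib, ← Finset.smul_sum, sum_perm x.t x.h, x.ht, smul_zero, neg_zero]
      h := x.h⁻¹
      e := x.e⁻¹ }

theorem mul_t (x y : Gr A) (i : ZMod 5) : (x * y).t i = x.t i + x.e • y.t (x.h⁻¹ i) := rfl
theorem mul_h (x y : Gr A) : (x * y).h = x.h * y.h := rfl
theorem mul_e (x y : Gr A) : (x * y).e = x.e * y.e := rfl
theorem one_t (i : ZMod 5) : (1 : Gr A).t i = 0 := rfl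
theorem one_h : (1 : Gr A).h = 1 := rfl
theorem one_e : (1 : Gr A).e = 1 := rfl
theorem inv_t (x : Gr A) (i : ZMod 5) : (x⁻¹).t i = -(x.e • x.t (x.h i)) := rfl
theorem inv_h (x : Gr A) : (x⁻¹).h = x.h⁻¹ := rfl
theorem inv_e (x : Gr A) : (x⁻¹).e = x.e⁻¹ := rfl

instance : Group (Gr A) :=
  Group.ofLeftAxioms
    (by
      intro x y z
      refine Gr.ext ?_ (mul_assoc _ _ _) (mul_assoc _ _ _)
      funext i
      rw [mul_t, mul_t, mul_t, mul_t, mul_h, mul_e, smul_add, add_assoc, mul_smul, mul_inv_rev]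
      rfl)
    (by
      intro x
      refine Gr.ext ?_ (one_mul _) (one_mul _)
      funext i
      rw [mul_t, one_t, one_h, one_e, zero_add, one_smul]
      rfl)
    (by
      intro x
      refine Gr.ext ?_ (inv_mul_cancel _) (inv_mul_cancel _)
      funext i
      rw [mul_t, inv_t, inv_h, inv_e, inv_inv, one_t]
      rcases e_cases x.e with h | h <;> rw [h] <;> simp)

/-- functoriality -/
def map {B : Type} [AddCommGroup B] (f : A ≃+ B) : Gr A ≃* Gr B where
  toFun x := { t := fun i => f (x.t i), ht := by rw [← map_sum, x.ht, map_zero], h := x.h, e := x.e }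
  invFun x := { t := fun i => f.symm (x.t i), ht := by rw [← map_sum, x.ht, map_zero], h := x.h,
                e := x.e }
  left_inv x := by
    refine Gr.ext ?_ rfl rfl
    funext i
    exact f.symm_apply_apply _
  right_inv x := by
    refine Gr.ext ?_ rfl rfl
    funext i
    exact f.apply_symm_apply _
  map_mul' x y := by
    refine Gr.ext ?_ rfl rfl
    funext i
    show f (x.t i + x.e • y.t (x.h⁻¹ i)) = f (x.t i) + x.e • f (y.t (x.h⁻¹ i))
    rw [map_add]
    rcases e_cases x.e with h | h <;> rw [h] <;> simp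

/-- translations -/
def tr (t : ZMod 5 → A) (ht : ∑ i, t i = 0) : Gr A := ⟨t, ht, 1, 1⟩

/-- linear action -/
def lin (x : Gr A) (t : ZMod 5 → A) : ZMod 5 → A := fun i => x.e • t (x.h⁻¹ i)

theorem lin_sum (x : Gr A) (t : ZMod 5 → A) (ht : ∑ i, t i = 0) : ∑ i, lin x t i = 0 := by
  unfold lin
  rw [← Finset.smul_sum, sum_perm t x.h⁻¹, ht, smul_zero]

theorem mul_tr (x : Gr A) (t : ZMod 5 → A) (ht : ∑ i, t i = 0) :
    x * tr t ht = tr (lin x t) (lin_sum x t ht) * x := by
  refine Gr.ext ?_ ?_ ?_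
  · funext i
    rw [mul_t, mul_t]
    show x.t i + x.e • t (x.h⁻¹ i) = lin x t i + (1 : ℤˣ) • x.t ((1 : Equiv.Perm (ZMod 5))⁻¹ i)
    rw [one_smul, inv_one, add_comm]
    rfl
  · rw [mul_h, mul_h]
    exact (mul_one _).trans (one_mul _).symm
  · rw [mul_e, mul_e]
    exact (mul_one _).trans (one_mul _).symm

theorem pow_h (x : Gr A) (n : ℕ) : (x ^ n).h = x.h ^ n := by
  induction n with
  | zero => rfl
  | succ n ih => rw [pow_succ, mul_h, ih, pow_succ]

theorem pow_e (x : Gr A) (n : ℕ) : (x ^ n).e = x.e ^ n := by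
  induction n with
  | zero => rw [pow_zero, pow_zero]; rfl
  | succ n ih => rw [pow_succ, mul_e, ih, pow_succ]

theorem tr_mul (t s : ZMod 5 → A) (ht : ∑ i, t i = 0) (hs : ∑ i, s i = 0) :
    tr t ht * tr s hs = tr (t + s) (by
      simp only [Pi.add_apply]; rw [Finset.sum_add_distrib, ht, hs, add_zero]) := by
  refine Gr.ext ?_ rfl rfl
  funext i
  show t i + (1 : ℤˣ) • s ((1 : Equiv.Perm (ZMod 5))⁻¹ i) = t i + s i
  rw [one_smul, inv_one]
  rfl

theorem tr_pow (t : ZMod 5 → A) (ht : ∑ i, t i = 0) (n : ℕ) :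
    tr t ht ^ n = tr (n • t) (by
      simp only [Pi.smul_apply]; rw [← Finset.smul_sum, ht, smul_zero]) := by
  induction n with
  | zero =>
    rw [pow_zero]
    refine Gr.ext ?_ rfl rfl
    funext i
    show 0 = (0 • t) i
    simp
  | succ n ih =>
    rw [pow_succ, ih, tr_mul]
    refine Gr.ext ?_ rfl rfl
    funext i
    show (n • t + t) i = ((n + 1) • t) i
    rw [succ_nsmul]

/-- the number such that powers are translations -/
def N0 : ℕ := 240

theorem pow_N0 (x : Gr A) : (x ^ N0).h = 1 ∧ (x ^ N0).e = 1 := by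
  rw [pow_h, pow_e]
  constructor
  · have h1 : x.h ^ Fintype.card (Equiv.Perm (ZMod 5)) = 1 := pow_card_eq_one
    rw [Fintype.card_perm, ZMod.card] at h1
    have h2 : N0 = Nat.factorial 5 * 2 := rfl
    rw [h2, pow_mul, h1, one_pow]
  · have h2 : N0 = 2 * 120 := rfl
    rw [h2, pow_mul, sq, e_mul_self, one_pow]

end Gr

end Q199.HC
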