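import Mathlib
import Pool.Agent.Q199.HC.Gr

/-!
No automorphism of `A_4 ⋊ (S_5 × {±1})` maps `(t₀, f)` to `(2 t₀, f)`.
-/

set_option autoImplicit false

namespace Q199.HC

open Gr

/-- the lattice -/
def T0 : Submodule ℤ (ZMod 5 → ℤ) where
  carrier := {t | ∑ i, t i = 0}
  add_mem' := by
    intro a b ha hb
    show ∑ i, (a i + b i) = 0
    rw [Finset.sum_add_distrib]
    have h1 : ∑ i, a i = 0 := ha
    have h2 : ∑ i, b i = 0 := hb
    rw [h1, h2, add_zero]
  zero_mem' := by
    show ∑ i : ZMod 5, (0 : ℤ) = 0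
    simp
  smul_mem' := by
    intro c a ha
    show ∑ i, c • a i = 0
    have h1 : ∑ i, a i = 0 := ha
    rw [← Finset.smul_sum, h1, smul_zero]

theorem t0_sum (t : T0) : ∑ i, t.1 i = 0 := t.2

/-- translation by a lattice vector -/
def tt (t : T0) : Gr ℤ := tr t.1 (t0_sum t)

/-- basis vectors -/
def ee (i : ZMod 5) : ZMod 5 → ℤ := Pi.single i 1

theorem ee_apply (i k : ZMod 5) : ee i k = if k = i then 1 else 0 := Pi.single_apply _ _ _

/-- the roots -/
def rt (i j : ZMod 5) : T0 := ⟨ee i - ee j, by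
  show ∑ k, (ee i k - ee j k) = 0
  simp only [ee_apply]
  rw [Finset.sum_sub_distrib]
  simp⟩

/-- linear action on the lattice -/
def lt (x : Gr ℤ) (t : T0) : T0 := ⟨lin x t.1, lin_sum x t.1 (t0_sum t)⟩

/-- inner product -/
def ip (s t : T0) : ℤ := ∑ i, s.1 i * t.1 i

theorem ip_add_left (a b c : T0) : ip (a + b) c = ip a c + ip b c := by
  unfold ip
  rw [← Finset.sum_add_distrib]
  refine Finset.sum_congr rfl fun i _ => ?_
  show (a.1 i + b.1 i) * c.1 i = _
  ring

theorem ip_comm (a b : T0) : ip a b = ip b a := by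
  unfold ip
  refine Finset.sum_congr rfl fun i _ => mul_comm _ _

theorem ip_add_right (a b c : T0) : ip a (b + c) = ip a b + ip a c := by
  rw [ip_comm, ip_add_left, ip_comm b, ip_comm c]

theorem ip_smul_left (n : ℤ) (a b : T0) : ip (n • a) b = n * ip a b := by
  unfold ip
  rw [Finset.mul_sum]
  refine Finset.sum_congr rfl fun i _ => ?_
  show (n * a.1 i) * b.1 i = _
  ring

theorem ip_smul_right (n : ℤ) (a b : T0) : ip a (n • b) = n * ip a b := by
  rw [ip_comm, ip_smul_left, ip_comm]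

theorem ip_sum_left {ι : Type} (F : Finset ι) (f : ι → T0) (b : T0) :
    ip (∑ i ∈ F, f i) b = ∑ i ∈ F, ip (f i) b := by
  classical
  induction F using Finset.induction_on with
  | empty =>
    rw [Finset.sum_empty, Finset.sum_empty]
    have := ip_smul_left 0 0 b
    rwa [zero_smul, zero_mul] at this
  | insert i F hi ih => rw [Finset.sum_insert hi, Finset.sum_insert hi, ip_add_left, ih]

theorem ip_sum_right {ι : Type} (F : Finset ι) (f : ι → T0) (b : T0) :
    ip b (∑ i ∈ F, f i) = ∑ i ∈ F, ip b (f i) := by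
  rw [ip_comm, ip_sum_left]
  exact Finset.sum_congr rfl fun i _ => ip_comm _ _

theorem ip_lt (x : Gr ℤ) (s t : T0) : ip (lt x s) (lt x t) = ip s t := by
  show ∑ i, (x.e • s.1 (x.h⁻¹ i)) * (x.e • t.1 (x.h⁻¹ i)) = ∑ i, s.1 i * t.1 i
  rw [← sum_perm (fun i => s.1 i * t.1 i) x.h⁻¹]
  refine Finset.sum_congr rfl fun i _ => ?_
  rcases e_cases x.e with h | h <;> rw [h] <;> simp

theorem ip_even (t : T0) : Even (ip t t) := by
  have h1 : Even (∑ i, (t.1 i * t.1 i - t.1 i)) := by
    refine Finset.even_sum _ fun i _ => ?_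
    rw [← mul_sub_one]
    exact Int.even_mul_pred_self _
  rw [Finset.sum_sub_distrib] at h1
  have h2 : ∑ i, t.1 i = 0 := t.2
  rwa [h2, sub_zero] at h1

/-- expansion in the roots -/
theorem expand (t : T0) : t = ∑ i, t.1 i • rt i 0 := by
  apply Subtype.ext
  funext k
  have h1 : (∑ i, t.1 i • rt i 0 : T0).1 k = ∑ i, t.1 i * (ee i k - ee 0 k) := by
    rw [Submodule.coe_sum, Finset.sum_apply]
    rfl
  rw [h1]
  simp only [mul_sub, Finset.sum_sub_distrib]
  rw [← Finset.sum_mul]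
  have h2 : ∑ i, t.1 i = 0 := t.2
  rw [h2, zero_mul, sub_zero]
  rw [Finset.sum_eq_single k]
  · rw [ee_apply, if_pos rfl, mul_one]
  · intro b _ hb
    rw [ee_apply, if_neg (Ne.symm hb), mul_zero]
  · intro h
    exact absurd (Finset.mem_univ k) h

theorem lt_rt (h : Equiv.Perm (ZMod 5)) (i j : ZMod 5) :
    lt ⟨0, by simp, h, 1⟩ (rt i j) = rt (h i) (h j) := by
  apply Subtype.ext
  funext k
  show (1 : ℤˣ) • (ee i (h⁻¹ k) - ee j (h⁻¹ k)) = ee (h i) k - ee (h j) k
  rw [one_smul]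
  have h1 : ∀ i : ZMod 5, ee i (h⁻¹ k) = ee (h i) k := by
    intro i
    rw [ee_apply, ee_apply]
    have : h⁻¹ k = i ↔ k = h i := by
      rw [Equiv.Perm.inv_eq_iff_eq]
    simp only [this]
  rw [h1, h1]

/-- the faithfulness of the action -/
theorem faithful (x : Gr ℤ) (hx : ∀ t : T0, lt x t = t) : x.h = 1 ∧ x.e = 1 := by
  have h0 : ∀ (i j k : ZMod 5), (x.e : ℤ) * ((if x.h⁻¹ k = i then 1 else 0) -
      (if x.h⁻¹ k = j then 1 else 0)) = (if k = i then 1 else 0) - (if k = j then 1 else 0) := by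
    intro i j k
    have h1 := congrFun (congrArg Subtype.val (hx (rt i j))) k
    have h2 : x.e • (ee i (x.h⁻¹ k) - ee j (x.h⁻¹ k)) = ee i k - ee j k := h1
    rw [ee_apply, ee_apply, ee_apply, ee_apply, Units.smul_def, smul_eq_mul] at h2
    exact h2
  have he : x.e = 1 := by
    rcases e_cases x.e with h | h
    · exact h
    · exfalso
      -- `h⁻¹ 0 = j` for all `j ≠ 0`
      have h3 : ∀ j : ZMod 5, j ≠ 0 → x.h⁻¹ 0 = j := by
        intro j hj
        have h4 := h0 0 j 0
        rw [h] at h4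
        by_contra hne
        rw [if_neg hne, if_pos rfl, if_neg (Ne.symm hj)] at h4
        by_cases h5 : x.h⁻¹ 0 = 0
        · rw [if_pos h5] at h4
          norm_num at h4
        · rw [if_neg h5] at h4
          norm_num at h4
      have h4 := h3 1 (by decide)
      have h5 := h3 2 (by decide)
      rw [h4] at h5
      exact absurd h5 (by decide)
  refine ⟨?_, he⟩
  ext1 k
  rw [Equiv.Perm.one_apply]
  have h1 : ∀ k, x.h⁻¹ k = k := by
    intro k
    by_contra hne
    have h2 := h0 k (x.h⁻¹ k) k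
    rw [he, if_neg hne, if_pos rfl, if_pos rfl, if_neg (Ne.symm hne)] at h2
    norm_num at h2
  have h2 := h1 k
  rw [Equiv.Perm.inv_eq_iff_eq] at h2
  exact h2.symm

/-- characterization of the translations -/
theorem tr_iff (x : Gr ℤ) : (x.h = 1 ∧ x.e = 1) ↔ ∀ y : Gr ℤ, x * y ^ N0 = y ^ N0 * x := by
  constructor
  · rintro ⟨h1, h2⟩ y
    obtain ⟨h3, h4⟩ := pow_N0 y
    refine Gr.ext ?_ ?_ ?_
    · funext i
      rw [mul_t, mul_t, h1, h2, h3, h4, one_smul, one_smul, add_comm, inv_one,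
        Equiv.Perm.one_apply]
    · rw [mul_h, mul_h, h1, h3]
    · rw [mul_e, mul_e, h2, h4]
  · intro h
    refine faithful x fun t => ?_
    have h1 := h (tt t)
    unfold tt at h1
    rw [tr_pow, mul_tr] at h1
    have h2 := congrArg (fun z => z * x⁻¹) h1
    simp only [mul_inv_cancel_right] at h2
    apply Subtype.ext
    funext i
    have h3 := congrFun (congrArg Gr.t h2) i
    have h4 : lin x (N0 • t.1) i = (N0 • t.1) i := h3
    have h5 : x.e • (N0 • t.1 (x.h⁻¹ i)) = N0 • t.1 i := h4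
    rw [smul_comm] at h5
    have h6 : (N0 : ℤ) * (x.e • t.1 (x.h⁻¹ i)) = (N0 : ℤ) * t.1 i := by
      rw [nsmul_eq_mul, nsmul_eq_mul] at h5
      exact h5
    exact mul_left_cancel₀ (by unfold N0; norm_num) h6

section aut

variable (α : Gr ℤ ≃* Gr ℤ)

theorem tr_image (x : Gr ℤ) (hx : x.h = 1 ∧ x.e = 1) : (α x).h = 1 ∧ (α x).e = 1 := by
  rw [tr_iff] at hx ⊢
  intro y
  obtain ⟨z, rfl⟩ := α.surjective y
  rw [← map_pow, ← map_mul, hx z, map_mul]

/-- the automorphism on the translations -/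
def ph (t : T0) : T0 := ⟨(α (tt t)).t, (α (tt t)).ht⟩

theorem tt_ph (t : T0) : α (tt t) = tt (ph α t) := by
  obtain ⟨h1, h2⟩ := tr_image α (tt t) ⟨rfl, rfl⟩
  exact Gr.ext rfl h1 h2

theorem tt_inj {s t : T0} (h : tt s = tt t) : s = t := Subtype.ext (congrArg Gr.t h)

theorem tt_add (s t : T0) : tt (s + t) = tt s * tt t := by
  unfold tt
  rw [tr_mul]
  rfl

theorem ph_add (s t : T0) : ph α (s + t) = ph α s + ph α t := by
  apply tt_inj
  rw [← tt_ph, tt_add, map_mul, tt_ph, tt_ph, tt_add]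

/-- as an additive homomorphism -/
def phh : T0 →+ T0 := AddMonoidHom.mk' (ph α) (ph_add α)

theorem ph_symm (t : T0) : ph α (ph α.symm t) = t := by
  apply tt_inj
  rw [← tt_ph, ← tt_ph, MulEquiv.apply_symm_apply]

theorem ph_lt (x : Gr ℤ) (t : T0) : ph α (lt x t) = lt (α x) (ph α t) := by
  apply tt_inj
  rw [← tt_ph]
  have h1 : x * tt t = tt (lt x t) * x := mul_tr x t.1 t.2
  have h2 : α x * tt (ph α t) = tt (lt (α x) (ph α t)) * α x := mul_tr (α x) _ _
  have h3 := congrArg α h1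
  rw [map_mul, map_mul, tt_ph α t] at h3
  rw [h3] at h2
  exact mul_right_cancel h2

theorem ip_ph_perm (h : Equiv.Perm (ZMod 5)) (i j k l : ZMod 5) :
    ip (ph α (rt (h i) (h j))) (ph α (rt (h k) (h l))) = ip (ph α (rt i j)) (ph α (rt k l)) := by
  rw [← lt_rt, ← lt_rt, ph_lt, ph_lt, ip_lt]

theorem exists_perm_pair (i j : ZMod 5) (h : i ≠ j) : ∃ σ : Equiv.Perm (ZMod 5), σ 1 = i ∧ σ 0 = j := by
  refine ⟨Equiv.swap (Equiv.swap 0 j 1) i * Equiv.swap 0 j, ?_, ?_⟩
  · rw [Equiv.Perm.mul_apply, Equiv.swap_apply_left]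
  · rw [Equiv.Perm.mul_apply, Equiv.swap_apply_left, Equiv.swap_apply_of_ne_of_ne _ (Ne.symm h)]
    intro h1
    have h2 : Equiv.swap 0 j 0 = Equiv.swap 0 j 1 := by rw [← h1, Equiv.swap_apply_left]
    exact absurd ((Equiv.swap 0 j).injective h2) (by decide)

/-- the square of the length of the images of the roots -/
def cq : ℤ := ip (ph α (rt 1 0)) (ph α (rt 1 0))

theorem ip_rr (i j : ZMod 5) (h : i ≠ j) : ip (ph α (rt i j)) (ph α (rt i j)) = cq α := by
  obtain ⟨σ, rfl, rfl⟩ := exists_perm_pair i j h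
  exact ip_ph_perm α σ 1 0 1 0

theorem rt_add (i j k : ZMod 5) : rt i j + rt j k = rt i k := by
  apply Subtype.ext
  show (ee i - ee j) + (ee j - ee k) = _
  rw [sub_add_sub_cancel]
  rfl

theorem rt_self (i : ZMod 5) : rt i i = 0 := by
  apply Subtype.ext
  show ee i - ee i = _
  rw [sub_self]
  rfl

theorem ph_zero : ph α 0 = 0 := (phh α).map_zero

theorem ph_neg (t : T0) : ph α (-t) = -ph α t := (phh α).map_neg t

theorem rt_swap (i j : ZMod 5) : rt j i = -rt i j := by
  rw [eq_neg_iff_add_eq_zero, rt_add, rt_self]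

theorem ip_neg_right (a b : T0) : ip a (-b) = -ip a b := by
  have := ip_smul_right (-1) a b
  rwa [neg_one_smul, neg_one_mul] at this

/-- `2 ip (φ r, φ s) = c ip (r, s)` for the roots `r = rt i 0`, `s = rt j 0` -/
theorem ip_root (i j : ZMod 5) :
    2 * ip (ph α (rt i 0)) (ph α (rt j 0)) = cq α * ip (rt i 0) (rt j 0) := by
  by_cases hi : i = 0
  · rw [hi, rt_self, ph_zero]
    have h1 := ip_smul_left 0 0 (ph α (rt j 0))
    have h2 := ip_smul_left 0 0 (rt j 0)
    rw [zero_smul, zero_mul] at h1 h2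
    rw [h1, h2]
    ring
  by_cases hj : j = 0
  · rw [hj, rt_self, ph_zero]
    have h1 := ip_smul_right 0 (ph α (rt i 0)) 0
    have h2 := ip_smul_right 0 (rt i 0) 0
    rw [zero_smul, zero_mul] at h1 h2
    rw [h1, h2]
    ring
  have hv : ∀ i j : ZMod 5, i ≠ 0 → j ≠ 0 → ip (rt i 0) (rt j 0) = if i = j then 2 else 1 := by
    decide
  by_cases hij : i = j
  · subst hij
    rw [ip_rr α i 0 hi, hv i i hi hi, if_pos rfl]
    ring
  · have h1 := ip_rr α i j hij
    have h2 : rt i j = rt i 0 + -rt j 0 := by rw [← rt_swap, rt_add]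
    rw [h2, ph_add, ph_neg, ip_add_left, ip_add_right, ip_add_right, ip_neg_right, ip_neg_right,
      ip_comm (-ph α (rt j 0)), ip_comm (-ph α (rt j 0)), ip_neg_right, ip_neg_right,
      ip_rr α i 0 hi, ip_rr α j 0 hj] at h1
    rw [hv i j hi hj, if_neg hij]
    linarith

theorem ip_all (s t : T0) : 2 * ip (ph α s) (ph α t) = cq α * ip s t := by
  have h1 : ∀ t : T0, ph α t = ∑ i, t.1 i • ph α (rt i 0) := by
    intro t
    have h2 : phh α t = phh α (∑ i, t.1 i • rt i 0) := congrArg _ (expand t)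
    rw [map_sum] at h2
    simp only [map_zsmul] at h2
    exact h2
  rw [h1 s, h1 t]
  conv_rhs => rw [expand s, expand t]
  rw [ip_sum_left, ip_sum_left, Finset.mul_sum, Finset.mul_sum]
  refine Finset.sum_congr rfl fun i _ => ?_
  rw [ip_sum_right, ip_sum_right, Finset.mul_sum, Finset.mul_sum]
  refine Finset.sum_congr rfl fun j _ => ?_
  rw [ip_smul_left, ip_smul_right, ip_smul_left, ip_smul_right]
  have := ip_root α i j
  linear_combination (s.1 i * t.1 j) * this

theorem cq_eq : cq α = 2 := by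
  have h1 := ip_all α (ph α.symm (rt 1 0)) (ph α.symm (rt 2 0))
  rw [ph_symm, ph_symm] at h1
  have h2 : ip (rt 1 0) (rt 2 0) = 1 := by decide
  rw [h2, mul_one] at h1
  obtain ⟨m, hm⟩ := ip_even (ph α (rt 1 0))
  have h3 : cq α = m + m := hm
  have h4 : 0 ≤ cq α := by
    unfold cq ip
    exact Finset.sum_nonneg fun i _ => mul_self_nonneg _
  rw [h3] at h1 h4 ⊢
  have h5 : m * ip (ph α.symm (rt 1 0)) (ph α.symm (rt 2 0)) = 1 := by linarith
  have h6 := Int.isUnit_iff.1 (IsUnit.of_mul_eq_one _ h5)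
  rcases h6 with h | h
  · rw [h]; norm_num
  · rw [h] at h4; norm_num at h4

theorem ip_ph (s t : T0) : ip (ph α s) (ph α t) = ip s t := by
  have := ip_all α s t
  rw [cq_eq] at this
  linarith

end aut

/-- the 5-cycle -/
def gc : Equiv.Perm (ZMod 5) := Equiv.addRight 1

theorem gc_inv (i : ZMod 5) : gc⁻¹ i = i - 1 := by
  rw [Equiv.Perm.inv_eq_iff_eq]
  show i = i - 1 + 1
  rw [sub_add_cancel]

/-- the rotation -/
def fc : Gr ℤ := ⟨0, by simp, gc, 1⟩

/-- the central inversion -/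
def cc : Gr ℤ := ⟨0, by simp, 1, -1⟩

/-- the first element -/
def u0 : Gr ℤ := tt (rt 1 0) * fc

/-- the second element -/
def v0 : Gr ℤ := tt (rt 1 0 + rt 1 0) * fc

/-- the class modulo 5 -/
def chi (t : T0) : ZMod 5 := ∑ i, i * (t.1 i : ZMod 5)

theorem sum5 {B : Type} [AddCommMonoid B] (f : ZMod 5 → B) :
    ∑ i, f i = f 0 + f 1 + f 2 + f 3 + f 4 := Fin.sum_univ_five f

theorem chi_add (s t : T0) : chi (s + t) = chi s + chi t := by
  unfold chi
  rw [← Finset.sum_add_distrib]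
  refine Finset.sum_congr rfl fun i _ => ?_
  show i * ((s.1 i + t.1 i : ℤ) : ZMod 5) = _
  rw [Int.cast_add, mul_add]

theorem chi_lt (x : Gr ℤ) (hh : x.h = gc) (he : x.e = 1) (t : T0) : chi (lt x t) = chi t := by
  unfold chi
  rw [← Equiv.sum_comp gc]
  have h1 : ∀ i : ZMod 5, gc i * ((lt x t).1 (gc i) : ZMod 5) = i * (t.1 i : ZMod 5) +
      (t.1 i : ZMod 5) := by
    intro i
    have h2 : (lt x t).1 (gc i) = t.1 i := by
      show x.e • t.1 (x.h⁻¹ (gc i)) = _
      rw [he, hh, one_smul, gc_inv]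
      show t.1 (i + 1 - 1) = _
      rw [add_sub_cancel_right]
    rw [h2]
    show (i + 1) * _ = _
    ring
  rw [Finset.sum_congr rfl fun i _ => h1 i, Finset.sum_add_distrib]
  have h2 : ∑ i, (t.1 i : ZMod 5) = ((∑ i, t.1 i : ℤ) : ZMod 5) := by push_cast; rfl
  rw [h2, t0_sum, Int.cast_zero, add_zero]

theorem small (a b c d e : ℤ) (h1 : a + b + c + d + e = 0)
    (h2 : a * a + b * b + c * c + d * d + e * e = 2)
    (h3 : a * e + b * a + c * b + d * c + e * d = -1) :
    (b + 2 * c + 3 * d + 4 * e) % 5 ≠ 2 := by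
  have ha : a = -1 ∨ a = 0 ∨ a = 1 := by
    have h4 : a < 2 := by nlinarith [mul_self_nonneg b, mul_self_nonneg c, mul_self_nonneg d, mul_self_nonneg e]
    have h5 : -2 < a := by nlinarith [mul_self_nonneg b, mul_self_nonneg c, mul_self_nonneg d, mul_self_nonneg e]
    omega
  have hb : b = -1 ∨ b = 0 ∨ b = 1 := by
    have h4 : b < 2 := by nlinarith [mul_self_nonneg a, mul_self_nonneg c, mul_self_nonneg d, mul_self_nonneg e]
    have h5 : -2 < b := by nlinarith [mul_self_nonneg a, mul_self_nonneg c, mul_self_nonneg d, mul_self_nonneg e]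
    omega
  have hc : c = -1 ∨ c = 0 ∨ c = 1 := by
    have h4 : c < 2 := by nlinarith [mul_self_nonneg a, mul_self_nonneg b, mul_self_nonneg d, mul_self_nonneg e]
    have h5 : -2 < c := by nlinarith [mul_self_nonneg a, mul_self_nonneg b, mul_self_nonneg d, mul_self_nonneg e]
    omega
  have hd : d = -1 ∨ d = 0 ∨ d = 1 := by
    have h4 : d < 2 := by nlinarith [mul_self_nonneg a, mul_self_nonneg b, mul_self_nonneg c, mul_self_nonneg e]
    have h5 : -2 < d := by nlinarith [mul_self_nonneg a, mul_self_nonneg b, mul_self_nonneg c, mul_self_nonneg e]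
    omega
  have he : e = -(a + b + c + d) := by linarith
  subst he
  rcases ha with rfl | rfl | rfl <;> rcases hb with rfl | rfl | rfl <;>
    rcases hc with rfl | rfl | rfl <;> rcases hd with rfl | rfl | rfl <;>
    first
    | (exfalso; revert h2; norm_num; done)
    | (exfalso; revert h3; norm_num; done)
    | (norm_num; done)

theorem no_aut (α : Gr ℤ ≃* Gr ℤ) : α u0 ≠ v0 := by
  intro h
  set q : T0 := ph α (rt 1 0) with hq
  -- the image of the rotation
  have h1 : tt q * α fc = tt (rt 1 0 + rt 1 0) * fc := by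
    rw [hq, ← tt_ph, ← map_mul]
    exact h
  set z : T0 := rt 1 0 + rt 1 0 + -q with hz
  have h2 : α fc = tt z * fc := by
    have h3 : tt q * (tt z * fc) = tt (rt 1 0 + rt 1 0) * fc := by
      rw [← mul_assoc, ← tt_add]
      congr 2
      rw [hz]
      abel
    rw [← h3] at h1
    exact mul_left_cancel h1
  have h3 : (α fc).h = gc := by rw [h2]; rfl
  have h4 : (α fc).e = 1 := by rw [h2]; rfl
  -- the central inversion
  have h5 : ∀ s : T0, lt (α cc) s = -s := by
    intro s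
    have h6 := ph_lt α cc (ph α.symm s)
    rw [ph_symm] at h6
    rw [← h6]
    have h7 : lt cc (ph α.symm s) = -(ph α.symm s) := by
      apply Subtype.ext
      funext i
      show (-1 : ℤˣ) • (ph α.symm s).1 i = -((ph α.symm s).1 i)
      simp
    rw [h7, ph_neg, ph_symm]
  have h6 : cc * fc = fc * cc := by
    refine Gr.ext ?_ rfl rfl
    funext i
    show (0 : ℤ) + (-1 : ℤˣ) • (0 : ℤ) = 0 + (1 : ℤˣ) • 0
    simp
  have h7 := congrArg α h6
  rw [map_mul, map_mul] at h7
  set w : T0 := ⟨(α cc).t, (α cc).ht⟩ with hw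
  have h8 : w + lt (α cc) z = z + lt (α fc) w := by
    apply Subtype.ext
    funext i
    have h9 := congrFun (congrArg Gr.t h7) i
    rw [mul_t, mul_t] at h9
    have h10 : (α fc).t = z.1 := by
      rw [h2]
      funext i
      show z.1 i + (1 : ℤˣ) • (0 : ℤ) = z.1 i
      simp
    rw [h10] at h9
    exact h9
  rw [h5] at h8
  have h9 : chi z + chi z = 0 := by
    have h10 : z + z + lt (α fc) w = w := by
      rw [add_assoc, ← h8]
      abel
    have h11 := congrArg chi h10
    rw [chi_add, chi_add, chi_lt _ h3 h4] at h11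
    have : chi z + chi z + chi w = 0 + chi w := by rw [h11, zero_add]
    exact add_right_cancel this
  have h10 : chi z = 0 := by
    revert h9
    generalize chi z = a
    revert a
    decide
  have h11 : chi q = 2 := by
    have h12 : z + q = rt 1 0 + rt 1 0 := by rw [hz]; abel
    have h13 := congrArg chi h12
    rw [chi_add, h10, zero_add] at h13
    rw [h13]
    decide
  -- the lengths
  have h12 : ip q q = 2 := by
    rw [hq, ip_ph]
    decide
  have h13 : ip q (lt (α fc) q) = -1 := by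
    rw [hq, ← ph_lt, ip_ph]
    decide
  have h14 := small (q.1 0) (q.1 1) (q.1 2) (q.1 3) (q.1 4) (by rw [← sum5 q.1]; exact t0_sum q)
    (by rw [← sum5 (fun i => q.1 i * q.1 i)]; exact h12) (by
    have h15 : ∀ i, (lt (α fc) q).1 i = q.1 (i - 1) := by
      intro i
      show (α fc).e • q.1 ((α fc).h⁻¹ i) = _
      rw [h3, h4, gc_inv, one_smul]
    have h16 : ip q (lt (α fc) q) = q.1 0 * q.1 4 + q.1 1 * q.1 0 + q.1 2 * q.1 1 +
        q.1 3 * q.1 2 + q.1 4 * q.1 3 := by
      show ∑ i, q.1 i * (lt (α fc) q).1 i = _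
      simp only [h15]
      rw [sum5 (fun i => q.1 i * q.1 (i - 1))]
      rfl
    rw [← h16]
    exact h13)
  apply h14
  have h15 : chi q = ((q.1 1 + 2 * q.1 2 + 3 * q.1 3 + 4 * q.1 4 : ℤ) : ZMod 5) := by
    have h16 : chi q = 0 * (q.1 0 : ZMod 5) + 1 * (q.1 1 : ZMod 5) + 2 * (q.1 2 : ZMod 5) +
      3 * (q.1 3 : ZMod 5) + 4 * (q.1 4 : ZMod 5) := sum5 _
    rw [h16]
    push_cast
    ring
  rw [h15] at h11
  have h16 : ((q.1 1 + 2 * q.1 2 + 3 * q.1 3 + 4 * q.1 4 : ℤ) : ZMod 5) = ((2 : ℤ) : ZMod 5) := by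
    rw [h11]; rfl
  have h17 := (ZMod.intCast_eq_intCast_iff _ _ 5).1 h16
  exact h17

end Q199.HC
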