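import Mathlib
import Pool.Agent.Q199.HC.Defs
import Pool.Agent.Q199.HC.NoAut

/-!
The group `A_4 ⋊ (S_5 × {±1})` as a group of isometries of `ℝ⁴`.
-/

set_option autoImplicit false

open scoped InnerProductSpace

namespace Q199.HC

open Gr

/-- the five dimensional space -/
abbrev V5 : Type := EuclideanSpace ℝ (ZMod 5)

/-- the vector `(1, 1, 1, 1, 1)` -/
noncomputable def one5 : V5 := WithLp.toLp 2 (fun _ => (1 : ℝ))

/-- the hyperplane -/
noncomputable abbrev P : Submodule ℝ V5 := (Submodule.span ℝ {one5})ᗮ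

theorem mem_P (x : V5) : x ∈ P ↔ ∑ i, x i = 0 := by
  rw [Submodule.mem_orthogonal_singleton_iff_inner_right, PiLp.inner_apply]
  have h1 : ∀ i, ⟪one5 i, x i⟫_ℝ = x i := by
    intro i
    show ⟪(1 : ℝ), x i⟫_ℝ = x i
    simp
  simp only [h1]

theorem one5_ne : one5 ≠ 0 := by
  intro h
  have h1 : one5 0 = (0 : V5) 0 := by rw [h]
  have h2 : (1 : ℝ) = 0 := h1
  exact one_ne_zero h2

instance factRank : Fact (Module.finrank ℝ V5 = 4 + 1) := ⟨by
  rw [finrank_euclideanSpace, ZMod.card]⟩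

/-- an isometry of the hyperplane and `ℝ⁴` -/
noncomputable def Φ : P ≃ₗᵢ[ℝ] E 4 :=
  (OrthonormalBasis.fromOrthogonalSpanSingleton 4 one5_ne).repr

/-- a vector of the hyperplane -/
noncomputable def mk (f : ZMod 5 → ℝ) (hf : ∑ i, f i = 0) : P :=
  ⟨WithLp.toLp 2 f, (mem_P _).2 hf⟩

theorem mk_apply (f : ZMod 5 → ℝ) (hf : ∑ i, f i = 0) (i : ZMod 5) : (mk f hf).1 i = f i := rfl

theorem P_sum (p : P) : ∑ i, p.1 i = 0 := (mem_P _).1 p.2

theorem P_ext {p q : P} (h : ∀ i, p.1 i = q.1 i) : p = q := by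
  apply Subtype.ext
  ext i
  exact h i

/-- the sign as a real number -/
def sr (x : Gr ℤ) : ℝ := ((x.e : ℤ) : ℝ)

theorem sr_mul (x y : Gr ℤ) : sr (x * y) = sr x * sr y := by
  unfold sr
  rw [mul_e]
  push_cast
  rfl

theorem sr_sq (x : Gr ℤ) : sr x * sr x = 1 := by
  unfold sr
  rcases e_cases x.e with h | h <;> rw [h] <;> simp

theorem sum_permR (f : ZMod 5 → ℝ) (h : Equiv.Perm (ZMod 5)) : ∑ i, f (h i) = ∑ i, f i :=
  Equiv.sum_comp h f

/-- the linear part of the action -/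
noncomputable def lnP (x : Gr ℤ) (p : P) : P :=
  mk (fun i => sr x * p.1 (x.h⁻¹ i)) (by
    rw [← Finset.mul_sum, sum_permR (fun i => p.1 i) x.h⁻¹, P_sum, mul_zero])

/-- the translation vector -/
noncomputable def trP (x : Gr ℤ) : P :=
  mk (fun i => (x.t i : ℝ)) (by
    have := x.ht
    exact_mod_cast this)

theorem lnP_apply (x : Gr ℤ) (p : P) (i : ZMod 5) : (lnP x p).1 i = sr x * p.1 (x.h⁻¹ i) := rfl

theorem trP_apply (x : Gr ℤ) (i : ZMod 5) : (trP x).1 i = (x.t i : ℝ) := rfl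

theorem lnP_add (x : Gr ℤ) (p q : P) : lnP x (p + q) = lnP x p + lnP x q := by
  refine P_ext fun i => ?_
  show sr x * (p.1 (x.h⁻¹ i) + q.1 (x.h⁻¹ i)) = sr x * p.1 (x.h⁻¹ i) + sr x * q.1 (x.h⁻¹ i)
  ring

theorem lnP_sub (x : Gr ℤ) (p q : P) : lnP x (p - q) = lnP x p - lnP x q := by
  refine P_ext fun i => ?_
  show sr x * (p.1 (x.h⁻¹ i) - q.1 (x.h⁻¹ i)) = sr x * p.1 (x.h⁻¹ i) - sr x * q.1 (x.h⁻¹ i)
  ring

theorem lnP_zero (x : Gr ℤ) : lnP x 0 = 0 := by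
  refine P_ext fun i => ?_
  show sr x * 0 = 0
  ring

theorem norm_lnP (x : Gr ℤ) (p : P) : ‖lnP x p‖ = ‖p‖ := by
  have h1 : ‖(lnP x p).1‖ ^ 2 = ‖p.1‖ ^ 2 := by
    rw [EuclideanSpace.real_norm_sq_eq, EuclideanSpace.real_norm_sq_eq]
    rw [← sum_permR (fun i => p.1 i ^ 2) x.h⁻¹]
    refine Finset.sum_congr rfl fun i _ => ?_
    rw [lnP_apply]
    have := sr_sq x
    linear_combination (p.1 (x.h⁻¹ i)) ^ 2 * this
  exact (pow_left_inj₀ (norm_nonneg _) (norm_nonneg _) two_ne_zero).1 h1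

/-- the action -/
noncomputable def act (x : Gr ℤ) (p : P) : P := lnP x p + trP x

theorem act_mul (x y : Gr ℤ) (p : P) : act (x * y) p = act x (act y p) := by
  refine P_ext fun i => ?_
  show sr (x * y) * p.1 ((x * y).h⁻¹ i) + ((x * y).t i : ℝ) =
    sr x * (sr y * p.1 (y.h⁻¹ (x.h⁻¹ i)) + (y.t (x.h⁻¹ i) : ℝ)) + (x.t i : ℝ)
  rw [sr_mul, mul_h, mul_t, mul_inv_rev, Equiv.Perm.mul_apply]
  have h1 : ((x.t i + x.e • y.t (x.h⁻¹ i) : ℤ) : ℝ) = x.t i + sr x * (y.t (x.h⁻¹ i) : ℝ) := by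
    rw [Units.smul_def, smul_eq_mul]
    push_cast
    rfl
  rw [h1]
  ring

theorem act_one (p : P) : act 1 p = p := by
  refine P_ext fun i => ?_
  show sr 1 * p.1 ((1 : Gr ℤ).h⁻¹ i) + (((1 : Gr ℤ).t i : ℤ) : ℝ) = p.1 i
  rw [one_h, one_t, inv_one, Equiv.Perm.one_apply]
  unfold sr
  rw [one_e]
  simp

theorem dist_act (x : Gr ℤ) (p q : P) : dist (act x p) (act x q) = dist p q := by
  unfold act
  rw [dist_add_right, dist_eq_norm, dist_eq_norm, ← lnP_sub, norm_lnP]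

/-- the isometry -/
noncomputable def rho0 (x : Gr ℤ) : E 4 ≃ᵢ E 4 where
  toFun z := Φ (act x (Φ.symm z))
  invFun z := Φ (act x⁻¹ (Φ.symm z))
  left_inv z := by
    beta_reduce
    rw [LinearIsometryEquiv.symm_apply_apply, ← act_mul, inv_mul_cancel, act_one,
      LinearIsometryEquiv.apply_symm_apply]
  right_inv z := by
    beta_reduce
    rw [LinearIsometryEquiv.symm_apply_apply, ← act_mul, mul_inv_cancel, act_one,
      LinearIsometryEquiv.apply_symm_apply]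
  isometry_toFun := Isometry.of_dist_eq fun z w => by
    rw [LinearIsometryEquiv.dist_map, dist_act, LinearIsometryEquiv.dist_map]

theorem rho0_apply (x : Gr ℤ) (z : E 4) : rho0 x z = Φ (act x (Φ.symm z)) := rfl

/-- the representation -/
noncomputable def rho : Gr ℤ →* Isom 4 where
  toFun := rho0
  map_one' := by
    show rho0 1 = (1 : E 4 ≃ᵢ E 4)
    ext1 z
    show rho0 1 z = z
    rw [rho0_apply, act_one, LinearIsometryEquiv.apply_symm_apply]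
  map_mul' x y := by
    show rho0 (x * y) = (rho0 x * rho0 y : E 4 ≃ᵢ E 4)
    ext1 z
    show rho0 (x * y) z = rho0 x (rho0 y z)
    rw [rho0_apply, rho0_apply, rho0_apply, LinearIsometryEquiv.symm_apply_apply, act_mul]

theorem rho_apply (x : Gr ℤ) (z : E 4) : ap (rho x) z = Φ (act x (Φ.symm z)) := rfl

/-- a lattice vector in the hyperplane -/
noncomputable def lv (t : T0) : P := trP (tt t)

theorem lv_apply (t : T0) (i : ZMod 5) : (lv t).1 i = (t.1 i : ℝ) := rfl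

theorem lnP_lv (x : Gr ℤ) (t : T0) : lnP x (lv t) = lv (lt x t) := by
  refine P_ext fun i => ?_
  rw [lnP_apply, lv_apply, lv_apply]
  show _ = ((x.e • t.1 (x.h⁻¹ i) : ℤ) : ℝ)
  rw [Units.smul_def, smul_eq_mul]
  push_cast
  rfl

theorem lv_inj {s t : T0} (h : lv s = lv t) : s = t := by
  apply Subtype.ext
  funext i
  have h1 : (lv s).1 i = (lv t).1 i := by rw [h]
  rw [lv_apply, lv_apply] at h1
  exact Int.cast_injective (α := ℝ) h1

theorem faithfulP (x : Gr ℤ) (h : ∀ p : P, lnP x p = p) : x.h = 1 ∧ x.e = 1 :=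
  faithful x fun t => lv_inj (by rw [← lnP_lv, h])

theorem rho_inj : Function.Injective rho := by
  rw [injective_iff_map_eq_one]
  intro x hx
  have h1 : ∀ p : P, act x p = p := by
    intro p
    have h2 : ap (rho x) (Φ p) = Φ p := by rw [hx]; rfl
    rw [rho_apply, LinearIsometryEquiv.symm_apply_apply] at h2
    exact Φ.injective h2
  have h2 : trP x = 0 := by
    have h3 := h1 0
    unfold act at h3
    rwa [lnP_zero, zero_add] at h3
  have h3 : ∀ p : P, lnP x p = p := by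
    intro p
    have h4 := h1 p
    unfold act at h4
    rwa [h2, add_zero] at h4
  obtain ⟨h4, h5⟩ := faithfulP x h3
  refine Gr.ext ?_ h4 h5
  funext i
  have h6 : (trP x).1 i = (0 : P).1 i := by rw [h2]
  rw [trP_apply] at h6
  have h7 : (x.t i : ℝ) = 0 := h6
  exact_mod_cast h7

/-- the crystallographic group -/
noncomputable abbrev GG : Subgroup (Isom 4) := rho.range

theorem fin_bdd (N : ℤ) : {x : Gr ℤ | ∀ i, |x.t i| ≤ N}.Finite := by
  let f : Gr ℤ → (ZMod 5 → ℤ) × Equiv.Perm (ZMod 5) × ℤˣ := fun x => (x.t, x.h, x.e)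
  have hf : Function.Injective f := by
    intro x y h
    exact Gr.ext (congrArg Prod.fst h) (congrArg (fun z => z.2.1) h) (congrArg (fun z => z.2.2) h)
  have h1 : (Set.pi Set.univ fun _ : ZMod 5 => Set.Icc (-N) N).Finite :=
    Set.Finite.pi fun _ => Set.finite_Icc _ _
  have h2 : ((Set.pi Set.univ fun _ : ZMod 5 => Set.Icc (-N) N) ×ˢ
      (Set.univ : Set (Equiv.Perm (ZMod 5) × ℤˣ))).Finite := h1.prod Set.finite_univ
  refine (h2.preimage hf.injOn).subset ?_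
  intro x hx
  refine ⟨fun i _ => ?_, Set.mem_univ _⟩
  exact abs_le.1 (hx i)

theorem crys_discrete (K : Set (E 4)) (hK : IsCompact K) :
    {g | g ∈ GG ∧ (ap g '' K ∩ K).Nonempty}.Finite := by
  obtain ⟨R, hR⟩ := hK.isBounded.exists_norm_le
  have h1 := (fin_bdd ⌈2 * R⌉).image rho
  refine h1.subset ?_
  rintro g ⟨⟨x, rfl⟩, z, ⟨w, hw, rfl⟩, hz⟩
  refine ⟨x, fun i => ?_, rfl⟩
  have h2 := hR _ hw
  have h3 := hR _ hz
  rw [rho_apply, LinearIsometryEquiv.norm_map] at h3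
  set p := Φ.symm w with hp
  have h4 : ‖p‖ ≤ R := by rw [hp, LinearIsometryEquiv.norm_map]; exact h2
  have h5 : |(act x p).1 i| ≤ R := (PiLp.norm_apply_le (p := 2) (act x p).1 i).trans h3
  have h6 : |p.1 (x.h⁻¹ i)| ≤ R := (PiLp.norm_apply_le (p := 2) p.1 (x.h⁻¹ i)).trans h4
  have h7 : (x.t i : ℝ) = (act x p).1 i - sr x * p.1 (x.h⁻¹ i) := by
    show _ = sr x * p.1 (x.h⁻¹ i) + (x.t i : ℝ) - sr x * p.1 (x.h⁻¹ i)
    ring
  have h8 : |sr x| = 1 := by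
    unfold sr
    rcases e_cases x.e with h | h <;> rw [h] <;> simp
  have h9 : |(x.t i : ℝ)| ≤ 2 * R := by
    rw [h7]
    refine (abs_sub _ _).trans ?_
    rw [abs_mul, h8, one_mul]
    linarith
  have h10 : ((|x.t i| : ℤ) : ℝ) ≤ 2 * R := by
    push_cast
    exact h9
  have h11 := h10.trans (Int.le_ceil (2 * R))
  exact_mod_cast h11

theorem real_bound (x1 x2 x3 x4 : ℝ) (p1 : 0 ≤ x1) (p2 : 0 ≤ x2) (p3 : 0 ≤ x3) (p4 : 0 ≤ x4)
    (q1 : x1 ≤ 1) (q2 : x2 ≤ 1) (q3 : x3 ≤ 1) (q4 : x4 ≤ 1) :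
    (-(x1 + x2 + x3 + x4)) ^ 2 + x1 ^ 2 + x2 ^ 2 + x3 ^ 2 + x4 ^ 2 ≤ 5 ^ 2 := by
  have r0 : (x1 + x2 + x3 + x4) ^ 2 ≤ 4 ^ 2 := by
    apply pow_le_pow_left₀ (by linarith)
    linarith
  have r1 : x1 ^ 2 ≤ 1 := by nlinarith
  have r2 : x2 ^ 2 ≤ 1 := by nlinarith
  have r3 : x3 ^ 2 ≤ 1 := by nlinarith
  have r4 : x4 ^ 2 ≤ 1 := by nlinarith
  have r5 : (-(x1 + x2 + x3 + x4)) ^ 2 = (x1 + x2 + x3 + x4) ^ 2 := by ring
  rw [r5]
  linarith

/-- rounding -/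
theorem exists_round (w : P) : ∃ t : T0, ‖w - lv t‖ ≤ 5 := by
  let f : ZMod 5 → ℤ := fun i => if i = 0 then -(⌊w.1 1⌋ + ⌊w.1 2⌋ + ⌊w.1 3⌋ + ⌊w.1 4⌋)
    else ⌊w.1 i⌋
  have hf : ∑ i, f i = 0 := by
    rw [sum5]
    show -(⌊w.1 1⌋ + ⌊w.1 2⌋ + ⌊w.1 3⌋ + ⌊w.1 4⌋) + ⌊w.1 1⌋ + ⌊w.1 2⌋ + ⌊w.1 3⌋ + ⌊w.1 4⌋ = 0
    ring
  refine ⟨⟨f, hf⟩, ?_⟩
  have hs : w.1 0 + w.1 1 + w.1 2 + w.1 3 + w.1 4 = 0 := by
    rw [← sum5 (fun i => w.1 i)]
    exact P_sum w
  have e0 : (w - lv ⟨f, hf⟩).1 0 = -((w.1 1 - ⌊w.1 1⌋) + (w.1 2 - ⌊w.1 2⌋) + (w.1 3 - ⌊w.1 3⌋) +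
      (w.1 4 - ⌊w.1 4⌋)) := by
    have e2 : (w - lv ⟨f, hf⟩).1 0 = w.1 0 -
        ((-(⌊w.1 1⌋ + ⌊w.1 2⌋ + ⌊w.1 3⌋ + ⌊w.1 4⌋) : ℤ) : ℝ) := rfl
    rw [e2]
    push_cast
    linear_combination hs
  have e1 : (w - lv ⟨f, hf⟩).1 1 = w.1 1 - ⌊w.1 1⌋ := rfl
  have e2 : (w - lv ⟨f, hf⟩).1 2 = w.1 2 - ⌊w.1 2⌋ := rfl
  have e3 : (w - lv ⟨f, hf⟩).1 3 = w.1 3 - ⌊w.1 3⌋ := rfl
  have e4 : (w - lv ⟨f, hf⟩).1 4 = w.1 4 - ⌊w.1 4⌋ := rfl
  have h1 : ‖(w - lv ⟨f, hf⟩).1‖ ^ 2 ≤ 5 ^ 2 := by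
    rw [EuclideanSpace.real_norm_sq_eq, sum5, e0, e1, e2, e3, e4]
    exact real_bound _ _ _ _ (sub_nonneg.2 (Int.floor_le _)) (sub_nonneg.2 (Int.floor_le _))
      (sub_nonneg.2 (Int.floor_le _)) (sub_nonneg.2 (Int.floor_le _))
      (by linarith [Int.lt_floor_add_one (w.1 1)]) (by linarith [Int.lt_floor_add_one (w.1 2)])
      (by linarith [Int.lt_floor_add_one (w.1 3)]) (by linarith [Int.lt_floor_add_one (w.1 4)])
  exact (pow_le_pow_iff_left₀ (norm_nonneg _) (by norm_num) two_ne_zero).1 h1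

theorem crys_cocompact : ∃ K : Set (E 4), IsCompact K ∧ ∀ x, ∃ g ∈ GG, x ∈ ap g '' K := by
  refine ⟨Metric.closedBall 0 5, isCompact_closedBall _ _, fun z => ?_⟩
  obtain ⟨t, ht⟩ := exists_round (Φ.symm z)
  refine ⟨rho (tt t), ⟨_, rfl⟩, Φ (Φ.symm z - lv t), ?_, ?_⟩
  · rw [mem_closedBall_zero_iff, LinearIsometryEquiv.norm_map]
    exact ht
  · rw [rho_apply, LinearIsometryEquiv.symm_apply_apply]
    have h1 : act (tt t) (Φ.symm z - lv t) = Φ.symm z := by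
      refine P_ext fun i => ?_
      show sr (tt t) * ((Φ.symm z).1 ((1 : Equiv.Perm (ZMod 5))⁻¹ i) -
        (t.1 ((1 : Equiv.Perm (ZMod 5))⁻¹ i) : ℝ)) + (t.1 i : ℝ) = (Φ.symm z).1 i
      rw [inv_one, Equiv.Perm.one_apply]
      have h2 : sr (tt t) = 1 := by
        show (((1 : ℤˣ) : ℤ) : ℝ) = 1
        simp
      rw [h2]
      ring
    rw [h1, LinearIsometryEquiv.apply_symm_apply]

theorem isCrys : IsCrystallographic 4 GG := ⟨by norm_num, crys_discrete, crys_cocompact⟩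

/-- the translations -/
theorem trans_iff (x : Gr ℤ) : (∃ a : E 4, IsTranslation (rho x) a) ↔ x.h = 1 ∧ x.e = 1 := by
  constructor
  · rintro ⟨a, ha⟩
    refine faithfulP x fun p => ?_
    have h1 : ∀ p : P, act x p = p + Φ.symm a := by
      intro p
      have h2 := ha (Φ p)
      rw [rho_apply, LinearIsometryEquiv.symm_apply_apply] at h2
      apply Φ.injective
      rw [h2, map_add, LinearIsometryEquiv.apply_symm_apply]
    have h2 : trP x = Φ.symm a := by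
      have h3 := h1 0
      unfold act at h3
      rwa [lnP_zero, zero_add, zero_add] at h3
    have h3 := h1 p
    unfold act at h3
    rw [h2] at h3
    exact add_right_cancel h3
  · rintro ⟨h1, h2⟩
    refine ⟨Φ (trP x), fun z => ?_⟩
    rw [rho_apply]
    have h3 : act x (Φ.symm z) = Φ.symm z + trP x := by
      unfold act
      congr 1
      refine P_ext fun i => ?_
      rw [lnP_apply, h1, inv_one, Equiv.Perm.one_apply]
      unfold sr
      rw [h2]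
      simp
    rw [h3, map_add, LinearIsometryEquiv.apply_symm_apply]

theorem isSplit : IsSplit GG := by
  let K0 : Subgroup (Gr ℤ) :=
    { carrier := {x | ∀ i, x.t i = 0}
      mul_mem' := by
        intro a b ha hb i
        have h1 : ∀ i, a.t i = 0 := ha
        have h2 : ∀ i, b.t i = 0 := hb
        show (a * b).t i = 0
        rw [mul_t, h1, h2, smul_zero, add_zero]
      one_mem' := fun i => rfl
      inv_mem' := by
        intro a ha i
        have h1 : ∀ i, a.t i = 0 := ha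
        show (a⁻¹).t i = 0
        rw [inv_t, h1, smul_zero, neg_zero] }
  refine ⟨K0.map rho.rangeRestrict, ?_, ?_⟩
  · rw [eq_bot_iff]
    rintro g ⟨⟨x, hx, rfl⟩, a, ha⟩
    have hx' : ∀ i, x.t i = 0 := hx
    have h1 := (trans_iff x).1 ⟨a, ha⟩
    have h2 : x = 1 := Gr.ext (funext hx') h1.1 h1.2
    rw [h2, map_one]
    exact Subgroup.mem_bot.2 rfl
  · rw [eq_top_iff]
    rintro ⟨g, x, rfl⟩ _
    let k : Gr ℤ := ⟨0, by simp, x.h, x.e⟩
    let t : T0 := ⟨x.t, x.ht⟩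
    have h1 : x = tt t * k := by
      refine Gr.ext ?_ (one_mul _).symm (one_mul _).symm
      funext i
      rw [mul_t]
      show x.t i = x.t i + (1 : ℤˣ) • 0
      simp
    have h2 : (⟨rho x, x, rfl⟩ : GG) = rho.rangeRestrict (tt t) * rho.rangeRestrict k := by
      rw [← map_mul, ← h1]
      rfl
    rw [h2]
    refine Subgroup.mul_mem _ ?_ ?_
    · refine Subgroup.mem_sup_right ?_
      exact (trans_iff (tt t)).2 ⟨rfl, rfl⟩
    · refine Subgroup.mem_sup_left ?_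
      exact ⟨k, fun i => rfl, rfl⟩

end Q199.HC
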