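import Mathlib

/-!
An additive automorphism of an ultrapower of `ℤ` that maps `1` to an element which is `2` modulo
`5`.
-/

set_option autoImplicit false

namespace Q199.HC

open Filter

/-- an ultrafilter -/
noncomputable abbrev UU : Ultrafilter ℕ := hyperfilter ℕ

/-- the ultrapower of the integers -/
abbrev ZS : Type := Germ (UU : Filter ℕ) ℤ

theorem ev_ge (N : ℕ) : ∀ᶠ n in (UU : Filter ℕ), N ≤ n :=
  Nat.hyperfilter_le_atTop (eventually_ge_atTop N)

theorem zs_cast (n : ℕ) : ((n : ℕ) : ZS) = ((fun _ => (n : ℤ) : ℕ → ℤ) : ZS) := rfl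

theorem zs_cancel (n : ℕ) (hn : 0 < n) (x : ZS) (h : (n : ZS) * x = 0) : x = 0 := by
  induction x using Germ.inductionOn with
  | _ f =>
    rw [zs_cast] at h
    have h1 : ((fun a => (n : ℤ) * f a : ℕ → ℤ) : ZS) = ((fun _ => 0 : ℕ → ℤ) : ZS) := h
    rw [Germ.coe_eq] at h1
    have h2 : ((f : ℕ → ℤ) : ZS) = ((fun _ => 0 : ℕ → ℤ) : ZS) := by
      rw [Germ.coe_eq]
      refine h1.mono fun a ha => ?_
      have h3 : (n : ℤ) * f a = 0 := ha
      rcases mul_eq_zero.1 h3 with h4 | h4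
      · exfalso
        have : n = 0 := by exact_mod_cast h4
        omega
      · exact h4
    exact h2

/-- the divisible subgroup -/
def DD : AddSubgroup ZS where
  carrier := {x | ∀ n : ℕ, 0 < n → ∃ y : ZS, x = n * y}
  add_mem' := by
    intro a b ha hb n hn
    obtain ⟨y, hy⟩ := ha n hn
    obtain ⟨z, hz⟩ := hb n hn
    exact ⟨y + z, by rw [hy, hz, mul_add]⟩
  zero_mem' := fun n _ => ⟨0, by rw [mul_zero]⟩
  neg_mem' := by
    intro a ha n hn
    obtain ⟨y, hy⟩ := ha n hn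
    exact ⟨-y, by rw [hy, mul_neg]⟩

theorem dd_mul (a x : ZS) (hx : x ∈ DD) : a * x ∈ DD := by
  intro n hn
  obtain ⟨y, hy⟩ := hx n hn
  exact ⟨a * y, by rw [hy]; ring⟩

theorem dd_div (n : ℕ) (hn : 0 < n) (x : ZS) (hx : x ∈ DD) : ∃ y ∈ DD, x = n * y := by
  obtain ⟨y, hy⟩ := hx n hn
  refine ⟨y, fun m hm => ?_, hy⟩
  obtain ⟨z, hz⟩ := hx (n * m) (Nat.mul_pos hn hm)
  refine ⟨z, ?_⟩
  have h1 : (n : ZS) * (y - m * z) = 0 := by
    rw [mul_sub, ← hy, hz]
    push_cast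
    ring
  exact sub_eq_zero.1 (zs_cancel n hn _ h1)

noncomputable instance : DivisibleBy DD ℤ :=
  divisibleByOfSMulRightSurj DD ℤ (by
    intro n hn
    have h0 : (n.natAbs) ≠ 0 := Int.natAbs_ne_zero.2 hn
    rintro ⟨x, hx⟩
    obtain ⟨y, hy, hxy⟩ := dd_div n.natAbs (Nat.pos_of_ne_zero h0) x hx
    rcases Int.natAbs_eq n with h | h
    · refine ⟨⟨y, hy⟩, Subtype.ext ?_⟩
      show n • y = x
      rw [h, hxy, natCast_zsmul, nsmul_eq_mul]
    · refine ⟨-⟨y, hy⟩, Subtype.ext ?_⟩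
      show n • (-y) = x
      rw [h, hxy, neg_smul, smul_neg, neg_neg, natCast_zsmul, nsmul_eq_mul])

/-- a retraction to the divisible subgroup -/
theorem exists_retr : ∃ r : ZS →+ ZS, (∀ x, r x ∈ DD) ∧ ∀ x ∈ DD, r x = x := by
  obtain ⟨h, hh⟩ := (Module.Baer.of_divisible DD).extension_property_addMonoidHom
    DD.subtype DD.subtype_injective (AddMonoidHom.id DD)
  refine ⟨DD.subtype.comp h, fun x => (h x).2, fun x hx => ?_⟩
  have h1 := DFunLike.congr_fun hh ⟨x, hx⟩
  have h2 : h x = ⟨x, hx⟩ := h1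
  show (h x).1 = x
  rw [h2]

/-- an element of the ultrapower which is `2` modulo `5` and prime to all standard integers -/
theorem exists_K : ∃ K m : ZS, K = 2 + 5 * m ∧ (∀ n : ℕ, 0 < n → ∃ a b : ZS, a * K + b * n = 1) ∧
    ∀ w : ZS, ∃ y : ZS, K * y - w ∈ DD := by
  have hu : IsUnit (2 : ZMod 5) := by decide
  choose p hp1 hp2 hp3 using fun n : ℕ => Nat.forall_exists_prime_gt_and_eq_mod hu n
  have hcop : ∀ n : ℕ, IsCoprime (p n : ℤ) (n.factorial : ℤ) := by
    intro n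
    rw [Nat.isCoprime_iff_coprime, (hp2 n).coprime_iff_not_dvd, (hp2 n).dvd_factorial]
    exact not_le.2 (hp1 n)
  have hmod : ∀ n : ℕ, (p n : ℤ) = 2 + 5 * (((p n : ℤ) - 2) / 5) := by
    intro n
    have h1 : ((p n : ℤ) : ZMod 5) = ((2 : ℤ) : ZMod 5) := by
      have := hp3 n
      exact_mod_cast this
    have h2 := (ZMod.intCast_eq_intCast_iff_dvd_sub _ _ 5).1 h1.symm
    have h3 := Int.mul_ediv_cancel' h2
    push_cast at h3
    linarith
  choose a b hab using hcop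
  refine ⟨((fun n => (p n : ℤ) : ℕ → ℤ) : ZS),
    ((fun n => ((p n : ℤ) - 2) / 5 : ℕ → ℤ) : ZS), ?_, ?_, ?_⟩
  · have h1 : ((fun n => (p n : ℤ) : ℕ → ℤ) : ZS) =
        ((fun n => 2 + 5 * (((p n : ℤ) - 2) / 5) : ℕ → ℤ) : ZS) := by
      congr 1
      funext n
      exact hmod n
    rw [h1]
    rfl
  · intro N hN
    refine ⟨((fun n => a n : ℕ → ℤ) : ZS),
      ((fun n => b n * ((n.factorial : ℤ) / N) : ℕ → ℤ) : ZS), ?_⟩
    have h1 : ((fun n => a n * (p n : ℤ) + b n * ((n.factorial : ℤ) / N) * N : ℕ → ℤ) : ZS) =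
        ((fun _ => 1 : ℕ → ℤ) : ZS) := by
      rw [Germ.coe_eq]
      refine (ev_ge N).mono fun n hn => ?_
      have h2 : (N : ℤ) ∣ (n.factorial : ℤ) := by
        exact_mod_cast Nat.dvd_factorial hN hn
      have h3 : (n.factorial : ℤ) / N * N = n.factorial := Int.ediv_mul_cancel h2
      show a n * (p n : ℤ) + b n * ((n.factorial : ℤ) / N) * N = 1
      rw [mul_assoc, h3]
      exact hab n
    exact h1
  · intro w
    induction w using Germ.inductionOn with
    | _ f =>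
      refine ⟨((fun n => a n * f n : ℕ → ℤ) : ZS), ?_⟩
      intro N hN
      refine ⟨((fun n => -(b n * ((n.factorial : ℤ) / N) * f n) : ℕ → ℤ) : ZS), ?_⟩
      have h1 : ((fun n => (p n : ℤ) * (a n * f n) - f n : ℕ → ℤ) : ZS) =
          ((fun n => (N : ℤ) * (-(b n * ((n.factorial : ℤ) / N) * f n)) : ℕ → ℤ) : ZS) := by
        rw [Germ.coe_eq]
        refine (ev_ge N).mono fun n hn => ?_
        have h2 : (N : ℤ) ∣ (n.factorial : ℤ) := by
          exact_mod_cast Nat.dvd_factorial hN hn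
        have h3 : (n.factorial : ℤ) / N * N = n.factorial := Int.ediv_mul_cancel h2
        show (p n : ℤ) * (a n * f n) - f n = (N : ℤ) * (-(b n * ((n.factorial : ℤ) / N) * f n))
        have h4 := hab n
        linear_combination (f n) * h4 + (b n * f n) * h3
      exact h1

/-- the automorphism -/
theorem exists_psi : ∃ (ψ : ZS ≃+ ZS) (m : ZS), ψ 1 = 2 + 5 * m := by
  obtain ⟨r, hr1, hr2⟩ := exists_retr
  obtain ⟨K, m, hK, hKc, hKs⟩ := exists_K
  have hK1 : ∀ y : ZS, K * y ∈ DD → y ∈ DD := by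
    intro y hy n hn
    obtain ⟨a, b, hab⟩ := hKc n hn
    obtain ⟨z, hz⟩ := hy n hn
    refine ⟨a * z + b * y, ?_⟩
    calc y = (a * K + b * n) * y := by rw [hab, one_mul]
      _ = a * (K * y) + b * n * y := by ring
      _ = _ := by rw [hz]; ring
  let s : ZS →+ ZS := AddMonoidHom.id ZS - r
  have hs : ∀ x, s x = x - r x := fun x => rfl
  have hrr : ∀ x, r (r x) = r x := fun x => hr2 _ (hr1 x)
  have hrs : ∀ x, r (s x) = 0 := fun x => by rw [hs, map_sub, hrr, sub_self]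
  have hsD : ∀ x ∈ DD, s x = 0 := fun x hx => by rw [hs, hr2 x hx, sub_self]
  have hsr : ∀ x, s (r x) = 0 := fun x => hsD _ (hr1 x)
  have hss : ∀ x, s (s x) = s x := fun x => by rw [hs (s x), hrs, sub_zero]
  have hs0 : ∀ x, s x = 0 → x ∈ DD := fun x hx => by
    rw [hs, sub_eq_zero] at hx
    rw [hx]
    exact hr1 x
  let ψ : ZS →+ ZS := r + s.comp ((AddMonoidHom.mulLeft K).comp s)
  have hψ : ∀ x, ψ x = r x + s (K * s x) := fun x => rfl
  have hinj : Function.Injective ψ := by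
    rw [injective_iff_map_eq_zero]
    intro x hx
    rw [hψ] at hx
    have h1 := congrArg r hx
    rw [map_add, hrr, hrs, add_zero, map_zero] at h1
    rw [h1, zero_add] at hx
    have h2 := hK1 _ (hs0 _ hx)
    have h3 : r (s x) = s x := hr2 _ h2
    rw [hrs] at h3
    have h4 := hs x
    rw [← h3, h1, sub_zero] at h4
    exact h4.symm
  have hsurj : Function.Surjective ψ := by
    intro w
    obtain ⟨y, hy⟩ := hKs w
    refine ⟨r w + s y, ?_⟩
    rw [hψ]
    have e1 : r (r w + s y) = r w := by rw [map_add, hrr, hrs, add_zero]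
    have e2 : s (r w + s y) = s y := by rw [map_add, hsr, zero_add, hss]
    rw [e1, e2]
    have e3 : s (K * s y) = s w := by
      have h1 : K * s y - w ∈ DD := by
        have h2 : K * s y - w = (K * y - w) - K * r y := by rw [hs]; ring
        rw [h2]
        exact DD.sub_mem hy (dd_mul _ _ (hr1 y))
      have h3 := hsD _ h1
      rw [map_sub, sub_eq_zero] at h3
      exact h3
    rw [e3, hs]
    abel
  refine ⟨AddEquiv.ofBijective ψ ⟨hinj, hsurj⟩, ?_⟩
  -- the value at `1`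
  have h1 : ψ 1 - K ∈ DD := by
    rw [hψ]
    have h2 : r 1 + s (K * s 1) - K = r 1 - r (K * s 1) - K * r 1 := by
      rw [hs, hs]
      ring
    rw [h2]
    exact DD.sub_mem (DD.sub_mem (hr1 _) (hr1 _)) (dd_mul _ _ (hr1 _))
  obtain ⟨y, hy⟩ := h1 5 (by norm_num)
  refine ⟨m + y, ?_⟩
  show ψ 1 = _
  have h2 : ψ 1 = K + ((5 : ℕ) : ZS) * y := by rw [← hy]; ring
  rw [h2, hK]
  push_cast
  ring

end Q199.HC
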