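import Mathlib
import Pool.Agent.Q199.HC.Defs
import Pool.Agent.Q199.HC.NoAut
import Pool.Agent.Q199.HC.ZStar

/-!
The two elements have the same type.
-/

set_option autoImplicit false

namespace Q199.HC

open Filter Gr FirstOrder

theorem exists_const {β : Type} [Finite β] (f : ℕ → β) : ∃ b, ∀ᶠ n in (UU : Filter ℕ), f n = b := by
  obtain ⟨b, hb⟩ := (UU.map f).eq_pure_of_finite
  refine ⟨b, ?_⟩
  have h1 : ({b} : Set β) ∈ UU.map f := by rw [hb]; exact Set.mem_singleton b
  exact h1

/-- the limit of a sequence in a finite set -/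
noncomputable def lm {β : Type} [Finite β] (f : ℕ → β) : β := (exists_const f).choose

theorem lm_spec {β : Type} [Finite β] (f : ℕ → β) : ∀ᶠ n in (UU : Filter ℕ), f n = lm f :=
  (exists_const f).choose_spec

theorem lm_eq {β : Type} [Finite β] (f : ℕ → β) (b : β) (h : ∀ᶠ n in (UU : Filter ℕ), f n = b) :
    lm f = b := by
  obtain ⟨n, h1, h2⟩ := ((lm_spec f).and h).exists
  rw [← h1, h2]

/-- the element of the group over the ultrapower given by a sequence -/
noncomputable def FF (x : ℕ → Gr ℤ) : Gr ZS where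
  t i := ((fun n => (x n).t i : ℕ → ℤ) : ZS)
  ht := by
    rw [sum5]
    have h1 : ((fun n => (x n).t 0 + (x n).t 1 + (x n).t 2 + (x n).t 3 + (x n).t 4 : ℕ → ℤ) : ZS) =
        ((fun _ => 0 : ℕ → ℤ) : ZS) := by
      congr 1
      funext n
      rw [← sum5 (x n).t]
      exact (x n).ht
    exact h1
  h := lm fun n => (x n).h
  e := lm fun n => (x n).e

theorem FF_mul (x y : ℕ → Gr ℤ) : FF (fun n => x n * y n) = FF x * FF y := by
  refine Gr.ext ?_ ?_ ?_
  · funext i
    show ((fun n => (x n).t i + (x n).e • (y n).t ((x n).h⁻¹ i) : ℕ → ℤ) : ZS) =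
      ((fun n => (x n).t i : ℕ → ℤ) : ZS) +
        (lm fun n => (x n).e) • ((fun n => (y n).t ((lm fun n => (x n).h)⁻¹ i) : ℕ → ℤ) : ZS)
    have h1 : ((fun n => (x n).t i + (x n).e • (y n).t ((x n).h⁻¹ i) : ℕ → ℤ) : ZS) =
        ((fun n => (x n).t i + (lm fun n => (x n).e) • (y n).t ((lm fun n => (x n).h)⁻¹ i) :
          ℕ → ℤ) : ZS) := by
      rw [Germ.coe_eq]
      refine ((lm_spec fun n => (x n).h).and (lm_spec fun n => (x n).e)).mono fun n hn => ?_
      show (x n).t i + (x n).e • (y n).t ((x n).h⁻¹ i) = _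
      rw [hn.1, hn.2]
    rw [h1]
    generalize (lm fun n => (x n).h)⁻¹ i = j
    rcases e_cases (lm fun n => (x n).e) with h | h
    · rw [h, one_smul]
      simp only [one_smul]
      rfl
    · rw [h]
      simp only [Units.neg_smul, one_smul]
      rfl
  · refine lm_eq _ _ ?_
    refine ((lm_spec fun n => (x n).h).and (lm_spec fun n => (y n).h)).mono fun n hn => ?_
    show (x n).h * (y n).h = (lm fun n => (x n).h) * (lm fun n => (y n).h)
    rw [← hn.1, ← hn.2]
  · refine lm_eq _ _ ?_
    refine ((lm_spec fun n => (x n).e).and (lm_spec fun n => (y n).e)).mono fun n hn => ?_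
    show (x n).e * (y n).e = (lm fun n => (x n).e) * (lm fun n => (y n).e)
    rw [← hn.1, ← hn.2]

theorem FF_one : FF (fun _ => 1) = 1 := by
  refine Gr.ext rfl ?_ ?_
  · exact lm_eq _ _ (Eventually.of_forall fun _ => rfl)
  · exact lm_eq _ _ (Eventually.of_forall fun _ => rfl)

theorem FF_inv (x : ℕ → Gr ℤ) : FF (fun n => (x n)⁻¹) = (FF x)⁻¹ := by
  rw [eq_inv_iff_mul_eq_one, ← FF_mul]
  simp only [inv_mul_cancel]
  exact FF_one

theorem FF_eq (x y : ℕ → Gr ℤ) : FF x = FF y ↔ ∀ᶠ n in (UU : Filter ℕ), x n = y n := by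
  constructor
  · intro h
    have h1 : ∀ i, ∀ᶠ n in (UU : Filter ℕ), (x n).t i = (y n).t i := by
      intro i
      have h2 := congrFun (congrArg Gr.t h) i
      exact Germ.coe_eq.1 h2
    have h2 : ∀ᶠ n in (UU : Filter ℕ), ∀ i, (x n).t i = (y n).t i := eventually_all.2 h1
    have h3 : (lm fun n => (x n).h) = (lm fun n => (y n).h) := congrArg Gr.h h
    have h4 : (lm fun n => (x n).e) = (lm fun n => (y n).e) := congrArg Gr.e h
    filter_upwards [h2, lm_spec fun n => (x n).h, lm_spec fun n => (y n).h,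
      lm_spec fun n => (x n).e, lm_spec fun n => (y n).e] with n a1 a2 a3 a4 a5
    refine Gr.ext (funext a1) ?_ ?_
    · rw [a2, a3, h3]
    · rw [a4, a5, h4]
  · intro h
    refine Gr.ext ?_ ?_ ?_
    · funext i
      exact Germ.coe_eq.2 (h.mono fun n hn => by show (x n).t i = (y n).t i; rw [hn])
    · refine lm_eq _ _ ?_
      filter_upwards [h, lm_spec fun n => (y n).h] with n a1 a2
      rw [a1]
      exact a2
    · refine lm_eq _ _ ?_
      filter_upwards [h, lm_spec fun n => (y n).e] with n a1 a2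
      rw [a1]
      exact a2

theorem FF_surj (z : Gr ZS) : ∃ x : ℕ → Gr ℤ, FF x = z := by
  classical
  choose f hf using fun i => Quotient.exists_rep (z.t i)
  have hf' : ∀ i, ((f i : ℕ → ℤ) : ZS) = z.t i := hf
  have hsum : ∀ᶠ n in (UU : Filter ℕ), ∑ i, f i n = 0 := by
    have h1 : ((fun n => f 0 n + f 1 n + f 2 n + f 3 n + f 4 n : ℕ → ℤ) : ZS) =
        ((fun _ => 0 : ℕ → ℤ) : ZS) := by
      have h2 := z.ht
      rw [sum5, ← hf', ← hf', ← hf', ← hf', ← hf'] at h2
      exact h2
    refine (Germ.coe_eq.1 h1).mono fun n hn => ?_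
    rw [sum5 fun i => f i n]
    exact hn
  let x : ℕ → Gr ℤ := fun n => if h : ∑ i, f i n = 0 then ⟨fun i => f i n, h, z.h, z.e⟩ else 1
  have hx : ∀ᶠ n in (UU : Filter ℕ), ∃ h, x n = ⟨fun i => f i n, h, z.h, z.e⟩ :=
    hsum.mono fun n hn => ⟨hn, dif_pos hn⟩
  refine ⟨x, Gr.ext ?_ ?_ ?_⟩
  · funext i
    rw [← hf']
    refine Germ.coe_eq.2 (hx.mono fun n hn => ?_)
    obtain ⟨_, hn⟩ := hn
    show (x n).t i = f i n
    rw [hn]
  · refine lm_eq _ _ (hx.mono fun n hn => ?_)
    obtain ⟨_, hn⟩ := hn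
    rw [hn]
  · refine lm_eq _ _ (hx.mono fun n hn => ?_)
    obtain ⟨_, hn⟩ := hn
    rw [hn]

/-- the ultrapower -/
abbrev PP : Type := (UU : Filter ℕ).Product (fun _ => Gr ℤ)

/-- the map from the ultrapower -/
noncomputable def gg : PP → Gr ZS := Quotient.lift FF fun x y h => (FF_eq x y).2 h

theorem gg_mk (x : ℕ → Gr ℤ) : gg (x : PP) = FF x := rfl

theorem gg_bij : Function.Bijective gg := by
  constructor
  · intro a b
    induction a using Quotient.inductionOn with
    | _ x =>
      induction b using Quotient.inductionOn with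
      | _ y =>
        intro h
        exact Quotient.sound ((FF_eq x y).1 h)
  · intro z
    obtain ⟨x, hx⟩ := FF_surj z
    exact ⟨(x : PP), hx⟩

/-- the isomorphism of the ultrapower and the group over the ultrapower of the integers -/
noncomputable def iso : groupLang.Equiv PP (Gr ZS) where
  toEquiv := Equiv.ofBijective gg gg_bij
  map_fun' := by
    intro n f x
    choose x' hx' using fun i => Quotient.exists_rep (x i)
    have hx : x = fun i => ((x' i : ℕ → Gr ℤ) : PP) := funext fun i => (hx' i).symm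
    have h1 := Language.Ultraproduct.funMap_cast (u := UU) (M := fun _ => Gr ℤ) f x'
    subst hx
    refine (congrArg gg h1).trans ?_
    show FF (fun a => Language.Structure.funMap f fun i => x' i a) =
      Language.Structure.funMap f (fun i => FF (x' i))
    cases f with
    | one => exact FF_one
    | inv => exact FF_inv _
    | mul => exact FF_mul _ _
  map_rel' := by
    intro n r
    exact r.elim

/-- an isomorphism of groups as an isomorphism of structures -/
def autOf {G H : Type} [Group G] [Group H] (σ : G ≃* H) : groupLang.Equiv G H where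
  toEquiv := σ.toEquiv
  map_fun' := by
    intro n f x
    cases f with
    | one => exact map_one σ
    | inv => exact map_inv σ _
    | mul => exact map_mul σ _ _
  map_rel' := by
    intro n r
    exact r.elim

/-- If an automorphism over the ultrapower maps the constant sequence of `u` to that of `v`, then
`u` and `v` have the same type. -/
theorem sameType_of {k : ℕ} (u v : Fin k → Gr ℤ) (σ : Gr ZS ≃* Gr ZS)
    (h : ∀ i, σ (FF fun _ => u i) = FF fun _ => v i) : SameType (Gr ℤ) u v := by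
  intro φ
  have h1 : ∀ w : Fin k → Gr ℤ, φ.Realize w ↔ φ.Realize (fun i => FF fun _ => w i) := by
    intro w
    have h2 := Language.Ultraproduct.realize_formula_cast (u := UU) (M := fun _ => Gr ℤ) φ
      (fun i _ => w i)
    have h3 := Language.StrongHomClass.realize_formula (L := groupLang) iso φ
      (v := fun i => ((fun _ => w i : ℕ → Gr ℤ) : PP))
    rw [h2] at h3
    rw [eventually_const] at h3
    exact h3.symm
  rw [h1 u, h1 v]
  have h3 := Language.StrongHomClass.realize_formula (L := groupLang) (autOf σ) φ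
      (v := fun i => FF fun _ => u i)
  rw [← h3]
  have h4 : (autOf σ) ∘ (fun i => FF fun _ => u i) = fun i => FF fun _ => v i := funext h
  rw [h4]

/-- the translation vector -/
def s0 (i : ZMod 5) : ℤ := if i = 0 then 4 else -1

theorem s0_sum : ∑ i, s0 i = 0 := by decide

theorem sameType_u0_v0 : SameType (Gr ℤ) (fun _ : Fin 1 => u0) (fun _ => v0) := by
  obtain ⟨ψ, m, hψ⟩ := exists_psi
  let s : ZMod 5 → ZS := fun i => ((s0 i : ℤ) : ZS) * m
  have hs : ∑ i, s i = 0 := by
    have h1 : ∑ i, s i = ((∑ i, s0 i : ℤ) : ZS) * m := by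
      rw [Int.cast_sum, Finset.sum_mul]
    rw [h1, s0_sum, Int.cast_zero, zero_mul]
  have hψ' : ∀ n : ℤ, ψ ((n : ℤ) : ZS) = n * (2 + 5 * m) := by
    intro n
    rw [← hψ, ← zsmul_eq_mul, ← map_zsmul]
    congr 1
    rw [zsmul_eq_mul, mul_one]
  refine sameType_of _ _ ((Gr.map ψ).trans (MulAut.conj (tr s hs))) fun _ => ?_
  show tr s hs * Gr.map ψ (FF fun _ => u0) * (tr s hs)⁻¹ = FF fun _ => v0
  rw [mul_inv_eq_iff_eq_mul]
  have hu : (FF fun _ => u0).h = gc := lm_eq _ _ (Eventually.of_forall fun _ => rfl)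
  have hv : (FF fun _ => v0).h = gc := lm_eq _ _ (Eventually.of_forall fun _ => rfl)
  have hue : (FF fun _ => u0).e = 1 := lm_eq _ _ (Eventually.of_forall fun _ => rfl)
  have hve : (FF fun _ => v0).e = 1 := lm_eq _ _ (Eventually.of_forall fun _ => rfl)
  refine Gr.ext ?_ ?_ ?_
  · funext i
    rw [mul_t, mul_t, hv, hve, one_smul, gc_inv]
    show s i + (1 : ℤˣ) • ψ (((u0.t ((1 : Equiv.Perm (ZMod 5))⁻¹ i) : ℤ)) : ZS) =
      ((v0.t i : ℤ) : ZS) + s (i - 1)
    rw [one_smul, hψ', inv_one, Equiv.Perm.one_apply]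
    have h1 : ∀ i : ZMod 5, v0.t i = 2 * u0.t i := by decide
    have h2 : ∀ i : ZMod 5, s0 i + 5 * u0.t i =
      s0 (i - 1) := by decide
    show ((s0 i : ℤ) : ZS) * m + _ =
      _ + ((s0 (i - 1) : ℤ) : ZS) * m
    rw [h1, ← h2]
    push_cast
    ring
  · rw [mul_h, mul_h, hv]
    show 1 * (FF fun _ => u0).h = gc * 1
    rw [hu, one_mul, mul_one]
  · rw [mul_e, mul_e, hve]
    show 1 * (FF fun _ => u0).e = 1 * 1
    rw [hue]

end Q199.HC
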