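import Mathlib
import Pool.Agent.Q199.HC.Geo
import Pool.Agent.Q199.HC.Ultra

/-!
Irreducibility, and the final result.
-/

set_option autoImplicit false

open scoped InnerProductSpace

namespace Q199.HC

open Gr FirstOrder

theorem rat_smul (q : ℚ) (w : E 4) : q • w = (q : ℝ) • w := by
  ext i
  show q • (w i) = (q : ℝ) * w i
  rw [Rat.smul_def]

theorem lin_part (x : Gr ℤ) (w : E 4) : ap (rho x) w - ap (rho x) 0 = Φ (lnP x (Φ.symm w)) := by
  rw [rho_apply, rho_apply, ← map_sub, map_zero]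
  unfold act
  rw [lnP_zero, zero_add, add_sub_cancel_right]

theorem lv_add (s t : T0) : lv (s + t) = lv s + lv t := by
  refine P_ext fun i => ?_
  show ((s.1 i + t.1 i : ℤ) : ℝ) = (s.1 i : ℝ) + (t.1 i : ℝ)
  push_cast
  rfl

theorem rat_coord (w : E 4) (hw : w ∈ ratSpan GG) : ∀ i, ∃ q : ℚ, (Φ.symm w).1 i = q := by
  unfold ratSpan at hw
  induction hw using Submodule.span_induction with
  | mem a ha =>
    obtain ⟨g, ⟨x, rfl⟩, hx⟩ := ha
    intro i
    have h1 := hx 0
    rw [zero_add, rho_apply, map_zero] at h1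
    unfold act at h1
    rw [lnP_zero, zero_add] at h1
    rw [← h1, LinearIsometryEquiv.symm_apply_apply]
    exact ⟨x.t i, by rw [trP_apply]; push_cast; rfl⟩
  | zero =>
    intro i
    refine ⟨0, ?_⟩
    rw [map_zero]
    simp
  | add a b _ _ ha hb =>
    intro i
    obtain ⟨q, hq⟩ := ha i
    obtain ⟨r, hr⟩ := hb i
    refine ⟨q + r, ?_⟩
    rw [map_add]
    show (Φ.symm a).1 i + (Φ.symm b).1 i = _
    rw [hq, hr]
    push_cast
    rfl
  | smul c a _ ha =>
    intro i
    obtain ⟨q, hq⟩ := ha i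
    refine ⟨c * q, ?_⟩
    rw [rat_smul, map_smul]
    show (c : ℝ) * (Φ.symm a).1 i = _
    rw [hq]
    push_cast
    rfl

theorem isIrred : IsIrreducible GG := by
  intro W hW hinv
  by_cases hbot : W = ⊥
  · exact Or.inl hbot
  right
  refine le_antisymm hW ?_
  obtain ⟨w, hw, hw0⟩ := W.ne_bot_iff.1 hbot
  have hinv' : ∀ (x : Gr ℤ), ∀ w ∈ W, Φ (lnP x (Φ.symm w)) ∈ W := by
    intro x w hw
    rw [← lin_part]
    exact hinv _ ⟨x, rfl⟩ w hw
  set p := Φ.symm w with hp
  have hp0 : p ≠ 0 := by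
    intro h
    apply hw0
    rw [← Φ.apply_symm_apply w, ← hp, h, map_zero]
  -- two different coordinates
  obtain ⟨i, j, hij⟩ : ∃ i j, p.1 i ≠ p.1 j := by
    by_contra hcon
    push Not at hcon
    apply hp0
    refine P_ext fun i => ?_
    have h1 := P_sum p
    have h2 : ∀ k, p.1 k = p.1 i := fun k => hcon k i
    simp only [h2, Finset.sum_const, Finset.card_univ, ZMod.card] at h1
    have h3 : (5 : ℕ) • p.1 i = 0 := h1
    rw [nsmul_eq_mul] at h3
    show p.1 i = 0
    have h4 : ((5 : ℕ) : ℝ) ≠ 0 := by norm_num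
    exact (mul_eq_zero.1 h3).resolve_left h4
  have hne : i ≠ j := fun h => hij (by rw [h])
  obtain ⟨qi, hqi⟩ := rat_coord w (hW hw) i
  obtain ⟨qj, hqj⟩ := rat_coord w (hW hw) j
  rw [← hp] at hqi hqj
  -- one root
  have h1 : Φ (lv (rt i j)) ∈ W := by
    let x : Gr ℤ := ⟨0, by simp, Equiv.swap i j, 1⟩
    have h2 : Φ (lnP x p) - w ∈ W := W.sub_mem (hinv' x w hw) hw
    have h3 : Φ (lnP x p) - w = (qj - qi) • Φ (lv (rt i j)) := by
      rw [rat_smul, ← map_smul, ← Φ.apply_symm_apply w, ← hp, ← map_sub]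
      congr 1
      refine P_ext fun k => ?_
      have e1 : sr x = 1 := by
        show (((1 : ℤˣ) : ℤ) : ℝ) = 1
        simp
      show sr x * p.1 ((Equiv.swap i j)⁻¹ k) - p.1 k =
        ((qj - qi : ℚ) : ℝ) * ((ee i k - ee j k : ℤ) : ℝ)
      rw [e1, one_mul, Equiv.swap_inv, ee_apply, ee_apply]
      by_cases hki : k = i
      · subst hki
        rw [Equiv.swap_apply_left, if_pos rfl, if_neg hne, hqi, hqj]
        push_cast
        ring
      · by_cases hkj : k = j
        · subst hkj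
          rw [Equiv.swap_apply_right, if_pos rfl, if_neg hki, hqi, hqj]
          push_cast
          ring
        · rw [Equiv.swap_apply_of_ne_of_ne hki hkj, if_neg hki, if_neg hkj]
          push_cast
          ring
    have h4 : qj - qi ≠ 0 := by
      intro h
      apply hij
      rw [hqi, hqj]
      have : qj = qi := sub_eq_zero.1 h
      rw [this]
    have h5 : Φ (lv (rt i j)) = (qj - qi)⁻¹ • (Φ (lnP x p) - w) := by
      rw [h3, smul_smul, inv_mul_cancel₀ h4, one_smul]
    rw [h5]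
    exact W.smul_mem _ h2
  -- all roots
  have h2 : ∀ k l, Φ (lv (rt k l)) ∈ W := by
    have h3 : ∀ h : Equiv.Perm (ZMod 5), Φ (lv (rt (h i) (h j))) ∈ W := by
      intro h
      rw [← lt_rt, ← lnP_lv]
      have h4 := hinv' ⟨0, by simp, h, 1⟩ _ h1
      rwa [LinearIsometryEquiv.symm_apply_apply] at h4
    intro k l
    by_cases hkl : k = l
    · rw [hkl, rt_self]
      have h4 : lv 0 = 0 := P_ext fun i => by
        show ((0 : ℤ) : ℝ) = 0
        simp
      rw [h4, map_zero]
      exact W.zero_mem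
    · obtain ⟨σ, s1, s2⟩ := exists_perm_pair k l hkl
      obtain ⟨π, r1, r2⟩ := exists_perm_pair i j hne
      have h4 := h3 (σ * π⁻¹)
      have e1 : (σ * π⁻¹) i = k := by
        rw [Equiv.Perm.mul_apply, (Equiv.Perm.inv_eq_iff_eq).2 r1.symm, s1]
      have e2 : (σ * π⁻¹) j = l := by
        rw [Equiv.Perm.mul_apply, (Equiv.Perm.inv_eq_iff_eq).2 r2.symm, s2]
      rwa [e1, e2] at h4
  -- the lattice
  let L : T0 →+ E 4 := AddMonoidHom.mk' (fun t => Φ (lv t)) (fun s t => by rw [lv_add, map_add])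
  have h3 : ∀ t : T0, L t ∈ W := by
    intro t
    rw [expand t, map_sum]
    refine W.sum_mem fun k _ => ?_
    rw [map_zsmul]
    exact zsmul_mem (h2 k 0) _
  unfold ratSpan
  rw [Submodule.span_le]
  rintro a ⟨g, ⟨x, rfl⟩, hx⟩
  have h4 := hx 0
  rw [zero_add, rho_apply, map_zero] at h4
  unfold act at h4
  rw [lnP_zero, zero_add] at h4
  rw [SetLike.mem_coe, ← h4]
  exact h3 ⟨x.t, x.ht⟩

theorem sameType_iso {G H : Type} [Group G] [Group H] (e : G ≃* H) {k : ℕ} (u v : Fin k → G)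
    (h : SameType G u v) : SameType H (fun i => e (u i)) (fun i => e (v i)) := by
  intro φ
  have h1 := Language.StrongHomClass.realize_formula (L := groupLang) (autOf e) φ (v := u)
  have h2 := Language.StrongHomClass.realize_formula (L := groupLang) (autOf e) φ (v := v)
  exact h1.trans ((h φ).trans h2.symm)

theorem not_hom : ¬ IsHomogeneous GG := by
  intro h
  let e : Gr ℤ ≃* GG := MonoidHom.ofInjective rho_inj
  obtain ⟨σ, hσ⟩ := h 1 le_rfl _ _ (sameType_iso e _ _ sameType_u0_v0)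
  refine no_aut ((e.trans σ).trans e.symm) ?_
  show e.symm (σ (e u0)) = v0
  rw [hσ 0, MulEquiv.symm_apply_apply]

end Q199.HC
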